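import Mathlib
import Pool.Agent.Helper95.FL.StmtsG

set_option autoImplicit false

namespace Pool.Agent.Helper95.FL

open FD

lemma fin3_cases {a b l : Fin 3} (hab : a ≠ b) (hal : a ≠ l) (hbl : b ≠ l) (i : Fin 3) :
    i = a ∨ i = b ∨ i = l := by
  revert a b l i; decide

lemma det_sg {K : Type} [Field K] {m : ℕ} (F : FD K m) (s : Fin 3) (c : K) (ε : Fin 3 → Bool) :
    (1 + sg s c * F.A ε).det = 1 + c := by
  rw [Matrix.det_fin_three]
  fin_cases s <;>
    simp [Matrix.mul_apply, Fin.sum_univ_three, sg, A]

theorem stInter : StInter := by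
  intro K _ m F a b l hab hal hbl
  ext g
  rw [Subgroup.mem_inf]
  constructor
  · rintro ⟨⟨C, hC1, hC2, hC3⟩, ⟨D, hD1, hD2, hD3⟩⟩
    have hC0 : mat g (fun _ => false) = C := by rw [hC2]; simp
    have hD0 : mat g (fun _ => false) = D := by rw [hD2]; simp
    have hCD : C = D := by rw [← hC0, hD0]
    subst hCD
    have h1 := hC2 (fun i => decide (i = a))
    have h2 := hD2 (fun i => decide (i = a))
    simp only [decide_true, if_true] at h1
    have hba : ¬ b = a := fun h => hab h.symm
    simp only [hba, decide_false, Bool.false_eq_true, if_false] at h2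
    have h3 : F.tm C = C := by rw [← h1, h2]
    have hsg : C = sg l (C l l) := by
      ext i j
      rcases fin3_cases hab hal hbl i with hi | hi | hi
      · subst hi; simp [sg, hal, (hC1 j).2]
      · subst hi; simp [sg, hbl, (hD1 j).2]
      · subst hi
        rcases fin3_cases hab hal hbl j with hj | hj | hj
        · subst hj; simp [sg, hal, (hC1 i).1]
        · subst hj; simp [sg, hbl, (hD1 i).1]
        · subst hj; simp [sg]
    refine ⟨C l l, ?_, fun ε => ?_⟩
    · have := congrFun (congrFun h3 l) l
      exact this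
    · rw [hC2, h3, ite_self]; exact hsg
  · rintro ⟨c, hc, hg⟩
    have htm : F.tm (sg l c) = sg l c := by
      ext i j
      simp only [tm, sg]
      by_cases h : i = l ∧ j = l
      · simp [h, hc]
      · simp [h]
    constructor
    · refine ⟨sg l c, fun i => ?_, fun ε => ?_, ?_⟩
      · simp [sg, hal]
      · rw [htm, ite_self]; exact hg ε
      · rw [det_sg]; simp [hc]
    · refine ⟨sg l c, fun i => ?_, fun ε => ?_, ?_⟩
      · simp [sg, hbl]
      · rw [htm, ite_self]; exact hg ε
      · rw [det_sg]; simp [hc]

end Pool.Agent.Helper95.FL
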